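import Pool.Agent.R117.Cyc2

/-!
# Disjoint orbit representatives fail for `lam = k - 1`

`IsCyclicDesign v k lam Bs` : `Bs` is the block multiset of a cyclic `(v, k, lam)`-design on
`ZMod v`.  `HasDisjointReps Bs` : one can choose one block from each block orbit so that the chosen
blocks are pairwise disjoint.

1. A cyclic `(v, k, k - 1)`-design with `k ≥ 3` and at least one short block orbit never has a
   system of disjoint representatives (for any `v`).
2. For every `j ≥ 1` there is a cyclic `(18 j + 3, 3, 2)`-design without a system of disjoint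
   representatives.
3. Hence the statement of the open problem is false.
-/

set_option autoImplicit false

namespace Pool.Agent.Results.MP_1dd1a8_co.ShortOrbitFailure

open Pool.Agent.R117.Cyc

theorem result :
    (∀ (v k : ℕ), 1 ≤ v → 3 ≤ k → ∀ Bs : Multiset (Finset (ZMod v)),
      IsCyclicDesign v k (k - 1) Bs → (∃ B ∈ Bs, ∃ t : ZMod v, t ≠ 0 ∧ translate t B = B) →
      ¬ HasDisjointReps Bs) ∧
    (∀ j : ℕ, 1 ≤ j → ∃ Bs : Multiset (Finset (ZMod (18 * j + 3))),
      IsCyclicDesign (18 * j + 3) 3 2 Bs ∧ ¬ HasDisjointReps Bs) ∧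
    ¬ (∀ k lam : ℕ, 1 ≤ lam → lam + 1 ≤ k → k ≤ 2 * lam →
        ∃ v0 : ℕ, ∀ v : ℕ, v0 ≤ v → 1 ≤ v → ∀ Bs : Multiset (Finset (ZMod v)),
          IsCyclicDesign v k lam Bs → HasDisjointReps Bs) := by
  refine ⟨?_, ?_, ?_⟩
  · rintro v k hv hk Bs hBs ⟨B, hB, t, ht, htB⟩
    have : NeZero v := ⟨by omega⟩
    exact no_reps hk Bs hBs B hB t ht htB
  · intro j _
    exact main j
  · intro h
    obtain ⟨v0, hv0⟩ := h 3 2 (by norm_num) (by norm_num) (by norm_num)
    obtain ⟨Bs, h1, h2⟩ := main v0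
    exact h2 (hv0 (18 * v0 + 3) (by omega) (by omega) Bs h1)

end Pool.Agent.Results.MP_1dd1a8_co.ShortOrbitFailure
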